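import Pool.Agent.helper18.HG.Spec

/-!
# Project HG (MP_33a656_nt), row EVM
-/

set_option autoImplicit false

namespace Pool.Agent.helper18.HG

open Finset

theorem EVM_add {z : ℂ} {F G : PowerSeries ℤ} {u v : ℂ} (hF : EV F z u) (hG : EV G z v) : EV (F + G) z (u + v) := by
  have e : ∀ n, ((PowerSeries.coeff n (F + G) : ℤ) : ℂ) * z ^ n =
      ((PowerSeries.coeff n F : ℤ) : ℂ) * z ^ n + ((PowerSeries.coeff n G : ℤ) : ℂ) * z ^ n := by
    intro n
    rw [map_add]
    push_cast
    ring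
  constructor
  · simp_rw [e]
    refine Summable.of_nonneg_of_le (fun n => norm_nonneg _) (fun n => norm_add_le _ _) (hF.1.add hG.1)
  · simp_rw [e]
    exact hF.2.add hG.2

theorem EVM_mul {z : ℂ} {F G : PowerSeries ℤ} {u v : ℂ} (hF : EV F z u) (hG : EV G z v) : EV (F * G) z (u * v) := by
  have e : ∀ n, ((PowerSeries.coeff n (F * G) : ℤ) : ℂ) * z ^ n =
      ∑ kl ∈ antidiagonal n, (((PowerSeries.coeff kl.1 F : ℤ) : ℂ) * z ^ kl.1) *
        (((PowerSeries.coeff kl.2 G : ℤ) : ℂ) * z ^ kl.2) := by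
    intro n
    rw [PowerSeries.coeff_mul]
    push_cast
    rw [Finset.sum_mul]
    refine Finset.sum_congr rfl fun kl hkl => ?_
    rw [← HasAntidiagonal.mem_antidiagonal.1 hkl, pow_add]
    ring
  have h1 := summable_norm_sum_mul_antidiagonal_of_summable_norm hF.1 hG.1
  have h2 := tsum_mul_tsum_eq_tsum_sum_antidiagonal_of_summable_norm hF.1 hG.1
  rw [hF.2.tsum_eq, hG.2.tsum_eq] at h2
  constructor
  · simp_rw [e]
    exact h1
  · simp_rw [e]
    rw [h2]
    exact h1.of_norm.hasSum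

theorem EVM_poly (z : ℂ) (P : Polynomial ℤ) : EV (P : PowerSeries ℤ) z (Polynomial.aeval z P) := by
  have h0 : ∀ n, n ∉ range (P.natDegree + 1) →
      ((PowerSeries.coeff n (P : PowerSeries ℤ) : ℤ) : ℂ) * z ^ n = 0 := by
    intro n hn
    rw [Polynomial.coeff_coe, Polynomial.coeff_eq_zero_of_natDegree_lt (by simpa using hn)]
    simp
  constructor
  · exact summable_of_ne_finset_zero (s := range (P.natDegree + 1)) fun n hn => by rw [h0 n hn, norm_zero]
  · have h1 : HasSum (fun n => ((PowerSeries.coeff n (P : PowerSeries ℤ) : ℤ) : ℂ) * z ^ n)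
        (∑ n ∈ range (P.natDegree + 1), ((PowerSeries.coeff n (P : PowerSeries ℤ) : ℤ) : ℂ) * z ^ n) :=
      hasSum_sum_of_ne_finset_zero h0
    have h2 : ∑ n ∈ range (P.natDegree + 1), ((PowerSeries.coeff n (P : PowerSeries ℤ) : ℤ) : ℂ) * z ^ n =
        Polynomial.aeval z P := by
      rw [Polynomial.aeval_eq_sum_range]
      refine Finset.sum_congr rfl fun n _ => ?_
      rw [Polynomial.coeff_coe, zsmul_eq_mul]
    rw [h2] at h1
    exact h1

theorem EVM : EVM_stmt := by
  intro z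
  refine ⟨fun F G u v hF hG => ⟨EVM_add hF hG, EVM_mul hF hG⟩, EVM_poly z, fun v hv => ?_⟩
  have h1 := hv.2
  have h2 : (fun n => ((PowerSeries.coeff n (0 : PowerSeries ℤ) : ℤ) : ℂ) * z ^ n) = fun _ => 0 := by
    funext n
    simp
  rw [h2] at h1
  exact h1.unique hasSum_zero

end Pool.Agent.helper18.HG
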